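import Pool.Agent.H91.Sym.A1

/-! Module H of project SYM: confinement. -/

set_option autoImplicit false

open MeasureTheory Set Filter Topology
open scoped ContDiff Pointwise

namespace Pool.Agent.H84.Sym

open Pool.Agent.H84

variable {E : Type*} [NormedAddCommGroup E] [InnerProductSpace ℝ E]
    [FiniteDimensional ℝ E] [MeasurableSpace E] [BorelSpace E]
variable {ι : Type*} [Fintype ι]

/-- Radial derivative of a uniformly convex function. -/
theorem radial_lower {U : E → ℝ} {t C : ℝ} (hU : Pot U t C) (x : E) :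
    t * ‖x‖ ^ 2 - C * ‖x‖ ≤ fderiv ℝ U x x := by
  set φ : ℝ → ℝ := fun s => fderiv ℝ U (s • x) x with hφ
  have hd : Differentiable ℝ (fderiv ℝ U) :=
    (hU.smooth.fderiv_right (m := 1) (by norm_num)).differentiable (by norm_num)
  have h1 : ∀ s, HasDerivAt φ (fderiv ℝ (fderiv ℝ U) (s • x) x x) s := by
    intro s
    have e1 : HasDerivAt (fun s : ℝ => s • x) x s := by
      simpa using (hasDerivAt_id s).smul_const x
    have e2 : HasDerivAt (fun s : ℝ => fderiv ℝ U (s • x)) (fderiv ℝ (fderiv ℝ U) (s • x) x) s :=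
      (hd (s • x)).hasFDerivAt.comp_hasDerivAt s e1
    have e3 := (ContinuousLinearMap.apply ℝ ℝ x).hasFDerivAt.comp_hasDerivAt s e2
    exact e3
  have h2 : ∃ c ∈ Ioo (0:ℝ) 1, deriv φ c = (φ 1 - φ 0) / (1 - 0) :=
    exists_deriv_eq_slope φ one_pos (fun s _ => (h1 s).continuousAt.continuousWithinAt)
      (fun s _ => (h1 s).differentiableAt.differentiableWithinAt)
  obtain ⟨c, _, hc⟩ := h2
  rw [(h1 c).deriv] at hc
  have h3 := hU.hess (c • x) x
  have h4 : -(C * ‖x‖) ≤ φ 0 := by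
    have := hU.grad 0
    have h5 : |fderiv ℝ U 0 x| ≤ C * ‖x‖ := by
      have h6 := (fderiv ℝ U 0).le_opNorm x
      rw [Real.norm_eq_abs] at h6
      refine h6.trans ?_
      have : ‖fderiv ℝ U 0‖ ≤ C := by simpa using this
      exact mul_le_mul_of_nonneg_right this (norm_nonneg _)
    simp only [hφ, zero_smul]
    exact (abs_le.1 h5).1
  have h7 : φ 1 = fderiv ℝ U x x := by simp [hφ]
  rw [← h7]
  have : φ 1 - φ 0 = fderiv ℝ (fderiv ℝ U) (c • x) x x := by rw [hc]; ring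
  linarith

theorem confine {U w : E → ℝ} {t C : ℝ} (hU : Pot U t C) (hw : Continuous w)
    (hw0 : ∀ x, 0 < w x) {Λ : ℝ} : ∃ c : ℝ, 0 < c ∧ ∀ f : E → ℝ, Tst f →
      ∫ x, ‖fderiv ℝ f x‖ ^ 2 ∂(mu U) ≤ Λ * ∫ x, f x ^ 2 ∂(mu U) →
      c * ∫ x, f x ^ 2 ∂(mu U) ≤ ∫ x, f x ^ 2 * w x ∂(mu U) := by
  have ht : 0 < t := hU.pos
  have hUc : Continuous U := hU.smooth.continuous
  set d : ℝ := (Module.finrank ℝ E : ℝ) with hd
  have hd0 : 0 ≤ d := Nat.cast_nonneg _
  set A : ℝ := 2 / t * (C ^ 2 / t + d + 4 * |Λ| / t) with hA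
  have hA0 : 0 ≤ A := by positivity
  set ρ : ℝ := 2 * A + 1 with hρ
  have hρ0 : 0 < ρ := by positivity
  -- lower bound of w on the ball
  obtain ⟨c0, hc0, hc0w⟩ : ∃ c0 : ℝ, 0 < c0 ∧ ∀ x : E, ‖x‖ ^ 2 ≤ ρ → c0 ≤ w x := by
    have hcomp : IsCompact (Metric.closedBall (0:E) (Real.sqrt ρ)) := isCompact_closedBall _ _
    obtain ⟨x0, _, hx0⟩ := hcomp.exists_isMinOn ⟨0, by simp⟩ hw.continuousOn
    refine ⟨w x0, hw0 x0, fun x hx => hx0 ?_⟩
    rw [Metric.mem_closedBall, dist_zero_right]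
    exact Real.le_sqrt_of_sq_le hx
  refine ⟨c0 / 2, by positivity, fun f hf hG => ?_⟩
  obtain ⟨hfs, hfc⟩ := hf
  have hf1 : ContDiff ℝ 1 f := hfs.of_le (by exact_mod_cast le_top)
  set b := stdOrthonormalBasis ℝ E with hb
  set N : ℝ := ∫ x, f x ^ 2 ∂(mu U) with hN
  have hN0 : 0 ≤ N := integral_nonneg fun x => sq_nonneg _
  have hcf2 : HasCompactSupport (fun x => f x ^ 2) := by
    have : (fun x => f x ^ 2) = fun x => f x * f x := by funext x; ring
    rw [this]; exact hfc.mul_left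
  have hdf : Continuous (fderiv ℝ f) := hf1.continuous_fderiv (by norm_num)
  have hif2 : Integrable (fun x => f x ^ 2) (mu U) :=
    integrable_mu hUc (hfs.continuous.pow 2) hcf2
  have hiM : Integrable (fun x => ‖x‖ ^ 2 * f x ^ 2) (mu U) :=
    integrable_mu hUc ((continuous_norm.pow 2).mul (hfs.continuous.pow 2)) hcf2.mul_left
  have hcg : HasCompactSupport (fun x => ‖fderiv ℝ f x‖ ^ 2) := by
    have h1 : HasCompactSupport (fderiv ℝ f) := hfc.fderiv (𝕜 := ℝ)
    have h2 := h1.norm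
    have : (fun x => ‖fderiv ℝ f x‖ ^ 2) = fun x => ‖fderiv ℝ f x‖ * ‖fderiv ℝ f x‖ := by
      funext x; ring
    rw [this]; exact h2.mul_left
  have hiG : Integrable (fun x => ‖fderiv ℝ f x‖ ^ 2) (mu U) :=
    integrable_mu hUc (hdf.norm.pow 2) hcg
  set M : ℝ := ∫ x, ‖x‖ ^ 2 * f x ^ 2 ∂(mu U) with hM
  set Gr : ℝ := ∫ x, ‖fderiv ℝ f x‖ ^ 2 ∂(mu U) with hGr
  -- Green's formula
  set q : E → ℝ := fun x => ‖x‖ ^ 2 / 2 with hq
  have hqs : ContDiff ℝ 2 q := (contDiff_norm_sq ℝ).div_const 2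
  have hfq : ∀ x e, D e q x = inner ℝ x e := by
    intro x e
    have h1 : HasFDerivAt (fun y : E => ‖y‖ ^ 2) (2 • (innerSL ℝ x)) x :=
      (hasStrictFDerivAt_norm_sq x).hasFDerivAt
    have h2 : HasFDerivAt q ((2:ℝ)⁻¹ • (2 • (innerSL ℝ x))) x := by
      have := h1.const_mul ((2:ℝ)⁻¹)
      refine this.congr_of_eventuallyEq (Eventually.of_forall fun y => ?_)
      simp only [hq]; ring
    simp only [D]
    rw [h2.fderiv]
    simp
  have hDq : ∀ e, D e q = fun x => inner ℝ x e := fun e => funext fun x => hfq x e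
  have hDDq : ∀ i x, D (b i) (D (b i) q) x = 1 := by
    intro i x
    rw [hDq]
    have h1 : HasFDerivAt (fun y : E => inner ℝ y (b i)) (innerSL ℝ (b i)) x := by
      have := (innerSL ℝ (b i)).hasFDerivAt (x := x)
      refine this.congr_of_eventuallyEq (Eventually.of_forall fun y => ?_)
      simp [real_inner_comm]
    simp only [D]
    rw [h1.fderiv]
    simp
  have hsumi : ∀ (ℓ : E →L[ℝ] ℝ) (x : E), ∑ i, ℓ (b i) * inner ℝ x (b i) = ℓ x := by
    intro ℓ x
    conv_rhs => rw [← b.sum_repr' x]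
    rw [map_sum]
    refine Finset.sum_congr rfl fun i _ => ?_
    rw [map_smul, smul_eq_mul, real_inner_comm]; ring
  have hLq : ∀ x, LO b U q x = d - fderiv ℝ U x x := by
    intro x
    simp only [LO, hDDq, hfq]
    have : ∑ i, D (b i) U x * inner ℝ x (b i) = fderiv ℝ U x x := hsumi (fderiv ℝ U x) x
    rw [this]
    simp [hd]
  have hgreen := green b (hU.smooth.of_le (by norm_num)) hqs (f := fun x => f x ^ 2) (hf1.pow 2)
    (Or.inr hcf2)
  have hDf2 : ∀ e x, D e (fun x => f x ^ 2) x = 2 * f x * fderiv ℝ f x e := by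
    intro e x
    have : (fun x => f x ^ 2) = fun x => f x * f x := by funext x; ring
    rw [this, D_mul (hf1.differentiable (by norm_num) x) (hf1.differentiable (by norm_num) x)]
    simp only [D]; ring
  have hgr2 : ∀ x, (∑ i, D (b i) q x * D (b i) (fun x => f x ^ 2) x) =
      2 * f x * fderiv ℝ f x x := by
    intro x
    have : ∀ i, D (b i) q x * D (b i) (fun x => f x ^ 2) x
        = 2 * f x * (fderiv ℝ f x (b i) * inner ℝ x (b i)) := by
      intro i; rw [hDf2, hfq]; ring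
    rw [Finset.sum_congr rfl fun i _ => this i, ← Finset.mul_sum, hsumi]
  -- pointwise inequality
  have hpt : ∀ x, t / 2 * (‖x‖ ^ 2 * f x ^ 2) ≤
      (C ^ 2 / t + d) * f x ^ 2 - LO b U q x * f x ^ 2
        - (∑ i, D (b i) q x * D (b i) (fun x => f x ^ 2) x)
        + 4 / t * ‖fderiv ℝ f x‖ ^ 2 := by
    intro x
    rw [hgr2, hLq]
    have h1 := radial_lower hU x
    have h2 : (t * ‖x‖ ^ 2 - C * ‖x‖) * f x ^ 2 ≤ fderiv ℝ U x x * f x ^ 2 :=
      mul_le_mul_of_nonneg_right h1 (sq_nonneg _)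
    have h3 : C * ‖x‖ ≤ t / 4 * ‖x‖ ^ 2 + C ^ 2 / t := by
      have : 0 ≤ (t / 2 * ‖x‖ - C) ^ 2 / t := by positivity
      have e : (t / 2 * ‖x‖ - C) ^ 2 / t = t / 4 * ‖x‖ ^ 2 + C ^ 2 / t - C * ‖x‖ := by
        field_simp; ring
      linarith
    have h4 : C * ‖x‖ * f x ^ 2 ≤ (t / 4 * ‖x‖ ^ 2 + C ^ 2 / t) * f x ^ 2 :=
      mul_le_mul_of_nonneg_right h3 (sq_nonneg _)
    have h5 : |fderiv ℝ f x x| ≤ ‖fderiv ℝ f x‖ * ‖x‖ := by
      have := (fderiv ℝ f x).le_opNorm x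
      rwa [Real.norm_eq_abs] at this
    have h6 : 2 * f x * fderiv ℝ f x x ≤ t / 4 * (‖x‖ ^ 2 * f x ^ 2) + 4 / t * ‖fderiv ℝ f x‖ ^ 2 := by
      have e1 : 2 * f x * fderiv ℝ f x x ≤ 2 * (|f x| * (‖fderiv ℝ f x‖ * ‖x‖)) := by
        have : f x * fderiv ℝ f x x ≤ |f x| * (‖fderiv ℝ f x‖ * ‖x‖) := by
          calc f x * fderiv ℝ f x x ≤ |f x * fderiv ℝ f x x| := le_abs_self _
            _ = |f x| * |fderiv ℝ f x x| := abs_mul _ _
            _ ≤ _ := mul_le_mul_of_nonneg_left h5 (abs_nonneg _)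
        linarith
      have e2 : 0 ≤ (t / 2 * (‖x‖ * |f x|) - 2 * ‖fderiv ℝ f x‖) ^ 2 / t := by positivity
      have e3 : (t / 2 * (‖x‖ * |f x|) - 2 * ‖fderiv ℝ f x‖) ^ 2 / t =
          t / 4 * (‖x‖ ^ 2 * |f x| ^ 2) + 4 / t * ‖fderiv ℝ f x‖ ^ 2
            - 2 * (|f x| * (‖fderiv ℝ f x‖ * ‖x‖)) := by
        field_simp; ring
      rw [sq_abs] at e3
      linarith
    nlinarith [h2, h4, h6]
  -- integrability
  have hqL : Continuous (fun x => LO b U q x) := by
    have : (fun x => LO b U q x) = fun x => d - fderiv ℝ U x x := funext hLq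
    rw [this]
    have h1 : Continuous (fderiv ℝ U) := hU.smooth.continuous_fderiv (by norm_num)
    exact continuous_const.sub (h1.clm_apply continuous_id)
  have hiL : Integrable (fun x => LO b U q x * f x ^ 2) (mu U) :=
    integrable_mu hUc (hqL.mul (hfs.continuous.pow 2)) hcf2.mul_left
  have hiS : Integrable (fun x => ∑ i, D (b i) q x * D (b i) (fun x => f x ^ 2) x) (mu U) := by
    have : (fun x => ∑ i, D (b i) q x * D (b i) (fun x => f x ^ 2) x) =
        fun x => f x * (2 * fderiv ℝ f x x) := by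
      funext x; rw [hgr2]; ring
    rw [this]
    exact integrable_mu hUc (hfs.continuous.mul (continuous_const.mul (hdf.clm_apply continuous_id)))
      hfc.mul_right
  have hkey : t / 2 * M ≤ (C ^ 2 / t + d) * N + 4 / t * Gr := by
    have j0 : Integrable (fun x => (C ^ 2 / t + d) * f x ^ 2) (mu U) := hif2.const_mul _
    have j1 : Integrable (fun x => (C ^ 2 / t + d) * f x ^ 2 - LO b U q x * f x ^ 2) (mu U) :=
      j0.sub hiL
    have j2 : Integrable (fun x => (C ^ 2 / t + d) * f x ^ 2 - LO b U q x * f x ^ 2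
        - (∑ i, D (b i) q x * D (b i) (fun x => f x ^ 2) x)) (mu U) := j1.sub hiS
    have j4 : Integrable (fun x => 4 / t * ‖fderiv ℝ f x‖ ^ 2) (mu U) := hiG.const_mul _
    have j3 : Integrable (fun x => (C ^ 2 / t + d) * f x ^ 2 - LO b U q x * f x ^ 2
        - (∑ i, D (b i) q x * D (b i) (fun x => f x ^ 2) x)
        + 4 / t * ‖fderiv ℝ f x‖ ^ 2) (mu U) := j2.add j4
    have h1 := integral_mono (μ := mu U) (hiM.const_mul (t / 2)) j3 hpt
    rw [integral_add j2 j4, integral_sub j1 hiS, integral_sub j0 hiL, integral_const_mul,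
      integral_const_mul, integral_const_mul, hgreen] at h1
    linarith
  have hGN : Gr ≤ |Λ| * N := hG.trans (mul_le_mul_of_nonneg_right (le_abs_self _) hN0)
  have hMA : M ≤ A * N := by
    have h1 : t / 2 * M ≤ (C ^ 2 / t + d + 4 * |Λ| / t) * N := by
      have : 4 / t * Gr ≤ 4 / t * (|Λ| * N) := mul_le_mul_of_nonneg_left hGN (by positivity)
      calc t / 2 * M ≤ (C ^ 2 / t + d) * N + 4 / t * Gr := hkey
        _ ≤ (C ^ 2 / t + d) * N + 4 / t * (|Λ| * N) := by linarith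
        _ = _ := by ring
    have h2 : 2 / t * (t / 2 * M) ≤ 2 / t * ((C ^ 2 / t + d + 4 * |Λ| / t) * N) :=
      mul_le_mul_of_nonneg_left h1 (by positivity)
    have h3 : 2 / t * (t / 2 * M) = M := by field_simp
    rw [h3] at h2
    calc M ≤ _ := h2
      _ = A * N := by rw [hA]; ring
  -- conclusion
  have hiw : Integrable (fun x => f x ^ 2 * w x) (mu U) :=
    integrable_mu hUc ((hfs.continuous.pow 2).mul hw) hcf2.mul_right
  have hfin : c0 * (N - 1 / ρ * M) ≤ ∫ x, f x ^ 2 * w x ∂(mu U) := by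
    have h1 : c0 * (N - 1 / ρ * M) = ∫ x, c0 * (f x ^ 2 - 1 / ρ * (‖x‖ ^ 2 * f x ^ 2)) ∂(mu U) := by
      rw [integral_const_mul, integral_sub hif2 (hiM.const_mul _), integral_const_mul]
    rw [h1]
    refine integral_mono ((hif2.sub (hiM.const_mul _)).const_mul c0) hiw fun x => ?_
    simp only
    by_cases hx : ‖x‖ ^ 2 ≤ ρ
    · have h2 := hc0w x hx
      have h3 : 0 ≤ 1 / ρ * (‖x‖ ^ 2 * f x ^ 2) := by positivity
      have h4 : c0 * f x ^ 2 ≤ f x ^ 2 * w x := by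
        have := mul_le_mul_of_nonneg_right h2 (sq_nonneg (f x))
        linarith
      have h5 : c0 * (1 / ρ * (‖x‖ ^ 2 * f x ^ 2)) ≥ 0 := by positivity
      linarith [mul_sub c0 (f x ^ 2) (1 / ρ * (‖x‖ ^ 2 * f x ^ 2))]
    · have h2 : ρ < ‖x‖ ^ 2 := lt_of_not_ge hx
      have h3 : f x ^ 2 ≤ 1 / ρ * (‖x‖ ^ 2 * f x ^ 2) := by
        have : 1 ≤ 1 / ρ * ‖x‖ ^ 2 := by
          rw [one_div, inv_mul_eq_div, le_div_iff₀ hρ0]; linarith
        nlinarith [sq_nonneg (f x)]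
      have h4 : 0 ≤ f x ^ 2 * w x := mul_nonneg (sq_nonneg _) (hw0 x).le
      have h5 : c0 * (f x ^ 2 - 1 / ρ * (‖x‖ ^ 2 * f x ^ 2)) ≤ 0 :=
        mul_nonpos_of_nonneg_of_nonpos hc0.le (by linarith)
      exact h5.trans h4
  refine le_trans ?_ hfin
  have h1 : 1 / ρ * M ≤ N / 2 := by
    have h2 : 1 / ρ * M ≤ 1 / ρ * (A * N) := mul_le_mul_of_nonneg_left hMA (by positivity)
    have h3 : 1 / ρ * (A * N) ≤ N / 2 := by
      rw [one_div, inv_mul_eq_div, div_le_iff₀ hρ0, hρ]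
      nlinarith
    linarith
  have : c0 * (N - 1 / ρ * M) ≥ c0 * (N / 2) := mul_le_mul_of_nonneg_left (by linarith) hc0.le
  linarith

end Pool.Agent.H84.Sym
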