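import Pool.Agent.H78.Sym.H
import Pool.Agent.H29.Sym.S
import Pool.Agent.H29.Sym.C
import Pool.Agent.H84.Sym.F2
import Pool.Agent.H85.Sym.G2

/-! Module J of project SYM: the theorem for potentials. -/

set_option autoImplicit false

open MeasureTheory Set Filter Topology
open scoped ContDiff Pointwise

namespace Pool.Agent.H84.Sym

open Pool.Agent.H84

variable {E : Type*} [NormedAddCommGroup E] [InnerProductSpace ℝ E]
    [FiniteDimensional ℝ E] [MeasurableSpace E] [BorelSpace E]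
variable {ι : Type*} [Fintype ι]

section J78

open C29

theorem tst_disp {u : E → ℝ} (hu : Tst u) (g : E ≃ₗᵢ[ℝ] E) : Tst (fun y => u (g y) - u y) := by
  have hug : Tst (fun y => u (g y)) := ⟨hu.1.comp g.contDiff,
    hu.2.comp_homeomorph g.toHomeomorph⟩
  exact ⟨hug.1.sub hu.1, hug.2.sub hu.2⟩

theorem tst_one {u : E → ℝ} (hu : Tst u) : ContDiff ℝ 1 u :=
  hu.1.of_le (by exact_mod_cast (le_top : (1 : ℕ∞) ≤ ⊤))

theorem tst_two {u : E → ℝ} (hu : Tst u) : ContDiff ℝ 2 u := by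
  simpa using contDiff_infty.mp hu.1 2

/-- The mean derivative of the displacement in a fixed direction vanishes. -/
theorem mean_D_zero {U u : E → ℝ} {t C : ℝ} (hU : Pot U t C) (hu : Tst u) (g : E ≃ₗᵢ[ℝ] E)
    (hg : ∀ x, U (g x) = U x) {e : E} (he : g e = e) :
    ∫ x, D e (fun y => u (g y) - u y) x ∂(mu U) = 0 := by
  have := isFinite_mu hU
  have hug : Tst (fun y => u (g y)) := ⟨hu.1.comp g.contDiff,
    hu.2.comp_homeomorph g.toHomeomorph⟩
  have h1 : ∀ x, D e (fun y => u (g y) - u y) x = D e u (g x) - D e u x := by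
    intro x
    rw [D_sub ((tst_one hug).differentiable (by norm_num) x)
      ((tst_one hu).differentiable (by norm_num) x), D_comp_isom g (tst_one hu), he]
  simp only [h1]
  have hb : BC (D e u) := D_BC (tst_one hu) hu.2 e
  have hb' : BC (fun x => D e u (g x)) :=
    ⟨hb.1.comp g.continuous, hb.2.imp fun A hA x => hA (g x)⟩
  rw [integral_sub (hb'.integrable (mu U)) (hb.integrable (mu U)),
    integral_comp_isom hU.smooth.continuous g hg (D e u), sub_self]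

/-- The energy of a near-eigenfunction. -/
theorem grad_le (b : OrthonormalBasis ι ℝ E) {U f : E → ℝ} {t C lam ε : ℝ} (hU : Pot U t C)
    (hf : Tst f) (hε : 0 < ε) (hε1 : ε ≤ 1)
    (hne : ∫ x, (LO b U f x + lam * f x) ^ 2 ∂(mu U) ≤ ε ^ 2 * ∫ x, f x ^ 2 ∂(mu U)) :
    ∫ x, ‖fderiv ℝ f x‖ ^ 2 ∂(mu U) ≤ (lam + 1) * ∫ x, f x ^ 2 ∂(mu U) := by
  have := isFinite_mu hU
  have hU1 : ContDiff ℝ 1 U := hU.smooth.of_le (by norm_num)
  have hL := LO_BC b hU1 hf
  have hF := tst_BC hf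
  have hN0 : 0 ≤ ∫ x, f x ^ 2 ∂(mu U) := integral_nonneg fun x => sq_nonneg _
  have hg := green b hU1 (tst_two hf) (tst_one hf) (Or.inl hf.2)
  have h1 : ∫ x, (∑ i, D (b i) f x * D (b i) f x) ∂(mu U) = ∫ x, ‖fderiv ℝ f x‖ ^ 2 ∂(mu U) := by
    congr 1; funext x
    rw [norm_fderiv_sq b f x]
    exact Finset.sum_congr rfl fun i _ => by ring
  rw [h1] at hg
  have i1 := (hL.mul hF).integrable (mu U)
  have i2 := hF.sq.integrable (mu U)
  have i3 := ((hL.add ((BC.const lam).mul hF)).sq).integrable (mu U)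
  have h2 : -(1/2) * ((∫ x, f x ^ 2 ∂(mu U)) + ∫ x, (LO b U f x + lam * f x) ^ 2 ∂(mu U)) ≤
      (∫ x, LO b U f x * f x ∂(mu U)) + lam * ∫ x, f x ^ 2 ∂(mu U) := by
    rw [← integral_add i2 i3, ← integral_const_mul, ← integral_const_mul,
      ← integral_add i1 (i2.const_mul _)]
    refine integral_mono ((i2.add i3).const_mul _) (i1.add (i2.const_mul _)) fun x => ?_
    simp only
    nlinarith [sq_nonneg (f x + (LO b U f x + lam * f x))]
  rw [hg] at h2
  have h3 : ε ^ 2 * ∫ x, f x ^ 2 ∂(mu U) ≤ ∫ x, f x ^ 2 ∂(mu U) := by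
    have : ε ^ 2 ≤ 1 := by nlinarith
    nlinarith
  linarith

theorem om_pos (S : Submodule ℝ E) (m : ℕ) (β : ℝ) (x : E) : 0 < om S m β x := Real.exp_pos _

theorem ph_cont (S : Submodule ℝ E) (R : ℝ) : Continuous (ph S R) := by
  unfold ph
  exact Real.continuous_sqrt.comp (continuous_const.add
    ((S.orthogonalProjectionOnto.continuous.norm).pow 2))

theorem om_cont (S : Submodule ℝ E) (m : ℕ) (β : ℝ) : Continuous (om S m β) := by
  unfold om
  exact Real.continuous_exp.comp ((continuous_const.mul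
    ((ph_cont S _).sub continuous_const)).neg)

theorem ph_ge (S : Submodule ℝ E) {R : ℝ} (hR : 0 ≤ R) (x : E) : R ≤ ph S R x := by
  unfold ph
  exact Real.le_sqrt_of_sq_le (by nlinarith [sq_nonneg ‖S.orthogonalProjectionOnto x‖])

theorem ph_le (S : Submodule ℝ E) {R : ℝ} (hR : 0 ≤ R) (x : E) :
    ph S R x ≤ R + ‖S.orthogonalProjectionOnto x‖ := by
  unfold ph
  rw [Real.sqrt_le_left (by positivity)]
  nlinarith [norm_nonneg (S.orthogonalProjectionOnto x)]

theorem om_le_one (S : Submodule ℝ E) {m : ℕ} {β : ℝ} (hβ : 0 < β) (x : E) : om S m β x ≤ 1 := by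
  unfold om
  rw [Real.exp_le_one_iff, neg_nonpos]
  have : (m:ℝ) / β ≤ ph S (m / β) x := ph_ge S (by positivity) x
  have : 0 ≤ ph S (m / β) x - m / β := by linarith
  positivity

theorem om_inv_le (S : Submodule ℝ E) {m : ℕ} {β : ℝ} (hβ : 0 < β) (x : E) :
    (om S m β x)⁻¹ ≤ Real.exp (2 * β * ‖S.orthogonalProjectionOnto x‖) := by
  unfold om
  rw [← Real.exp_neg, neg_neg, Real.exp_le_exp]
  have : ph S (m / β) x ≤ m / β + ‖S.orthogonalProjectionOnto x‖ := ph_le S (by positivity) x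
  have h2 : ph S (m / β) x - m / β ≤ ‖S.orthogonalProjectionOnto x‖ := by linarith
  exact mul_le_mul_of_nonneg_left h2 (by positivity)

/-- Cauchy-Schwarz with the weight. -/
theorem cs_weight {μ : Measure E} {F om' : E → ℝ} (hom : ∀ x, 0 < om' x)
    (h1 : Integrable (fun x => |F x|) μ) (h2 : Integrable (fun x => F x ^ 2 * om' x) μ)
    {P : E → ℝ} (hP : Integrable P μ) (hPo : ∀ x, (om' x)⁻¹ ≤ P x)
    (hF0 : 0 < ∫ x, F x ^ 2 * om' x ∂μ) :
    (∫ x, |F x| ∂μ) ^ 2 ≤ (∫ x, F x ^ 2 * om' x ∂μ) * ∫ x, P x ∂μ := by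
  set M := ∫ x, |F x| ∂μ with hM
  set Q := ∫ x, F x ^ 2 * om' x ∂μ with hQ
  set T := ∫ x, P x ∂μ with hT
  have hM0 : 0 ≤ M := integral_nonneg fun x => abs_nonneg _
  have hT0 : 0 ≤ T := integral_nonneg fun x => (inv_pos.2 (hom x)).le.trans (hPo x)
  rcases hM0.eq_or_lt with h | hMp
  · rw [← h]; simp only [ne_eq, OfNat.ofNat_ne_zero, not_false_eq_true, zero_pow]
    exact mul_nonneg hF0.le hT0
  have key : 2 * M ≤ (M / Q) * Q + (Q / M) * T := by
    rw [hM, hQ, hT, ← integral_const_mul, ← integral_const_mul, ← integral_const_mul,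
      ← integral_add (h2.const_mul _) (hP.const_mul _)]
    refine integral_mono (h1.const_mul _) ((h2.const_mul _).add (hP.const_mul _)) fun x => ?_
    simp only [← hM, ← hQ]
    have h3 : Q / M * (om' x)⁻¹ ≤ Q / M * P x :=
      mul_le_mul_of_nonneg_left (hPo x) (by positivity)
    refine le_trans ?_ (add_le_add le_rfl h3)
    have ho := hom x
    have h4 : 0 ≤ (M * (|F x| * om' x) - Q) ^ 2 / (M * Q * om' x) := by positivity
    have h5 : (M * (|F x| * om' x) - Q) ^ 2 / (M * Q * om' x) =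
        M / Q * (|F x| ^ 2 * om' x) + Q / M * (om' x)⁻¹ - 2 * |F x| := by
      field_simp; ring
    rw [sq_abs] at h5
    linarith
  have h6 : (M / Q) * Q = M := by field_simp
  rw [h6] at key
  have h7 : M ≤ Q / M * T := by linarith
  have h8 : M * M ≤ M * (Q / M * T) := mul_le_mul_of_nonneg_left h7 hM0
  have h9 : M * (Q / M * T) = Q * T := by field_simp
  rw [h9] at h8
  calc M ^ 2 = M * M := sq M
    _ ≤ _ := h8

theorem gpc_mono {μ : Measure E} {L L' : ℝ} (h : GPC μ L) (hL : L ≤ L') : GPC μ L' := by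
  intro f hf hc
  refine (h f hf hc).trans (mul_le_mul_of_nonneg_right hL ?_)
  exact mul_nonneg measureReal_nonneg (integral_nonneg fun x => sq_nonneg _)

/-- The main estimate for one symmetry. -/
theorem one_sym (b : OrthonormalBasis ι ℝ E) {U : E → ℝ} {t C β : ℝ} {m : ℕ} (hU : Pot U t C)
    [IsProbabilityMeasure (mu U)] (g : E ≃ₗᵢ[ℝ] E)
    (hg : ∀ x, U (g x) = U x)
    (hm1 : 1 ≤ m) (hβ : 0 < β)
    (hm : Module.finrank ℝ (Mv (g.toLinearEquiv : E →ₗ[ℝ] E)) ≤ m)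
    (hmom : ∫ x, Real.exp (2 * β *
      ‖(Mv (g.toLinearEquiv : E →ₗ[ℝ] E)).orthogonalProjectionOnto x‖) ∂(mu U) ≤ 3)
    {lam : ℝ} (hlam : 0 < lam) (hpc : GPC (mu U) (1 / lam))
    (hsmall : 3120000 * m * lam ≤ β ^ 2) {ε : ℝ} (hε : 0 < ε) (hε1 : ε ≤ 1)
    {u : E → ℝ} (hu : Tst u)
    (hpos : 0 < ∫ x, (u (g x) - u x) ^ 2 * om (Mv (g.toLinearEquiv : E →ₗ[ℝ] E)) m β x ∂(mu U))
    (hne : ∫ x, (LO b U (fun y => u (g y) - u y) x + lam * (u (g x) - u x)) ^ 2 ∂(mu U)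
        ≤ ε ^ 2 * ∫ x, (u (g x) - u x) ^ 2 ∂(mu U)) :
    ∫ x, (u (g x) - u x) ^ 2 * om (Mv (g.toLinearEquiv : E →ₗ[ℝ] E)) m β x ∂(mu U) ≤
      4 * (20 * m / β ^ 2) * (1500 * (1 + lam) * (1 + 1 / (β ^ 2 / (160 * m))) * ε *
        ∫ x, (u (g x) - u x) ^ 2 ∂(mu U)) := by
  classical
  set S : Submodule ℝ E := Mv (g.toLinearEquiv : E →ₗ[ℝ] E) with hS
  set f : E → ℝ := fun y => u (g y) - u y with hfdef
  have hf : Tst f := tst_disp hu g
  have hm0 : (0:ℝ) < m := by exact_mod_cast hm1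
  obtain ⟨b', hb1, hb2, hb3⟩ := adapted_basis S
  set I : Finset (Fin (Module.finrank ℝ S) ⊕ Fin (Module.finrank ℝ Sᗮ)) :=
    Finset.univ.map ⟨Sum.inl, Sum.inl_injective⟩ with hI
  set a : ℝ := β / Real.sqrt (160 * m) with ha
  have ha0 : 0 < a := by positivity
  have ha2 : a ^ 2 = β ^ 2 / (160 * m) := by
    rw [ha, div_pow, Real.sq_sqrt (by positivity)]
  have hla : 712 * lam ≤ a ^ 2 := by
    rw [ha2, le_div_iff₀ (by positivity)]
    nlinarith
  have hne' : ∫ x, (LO b' U f x + lam * f x) ^ 2 ∂(mu U) ≤ ε ^ 2 * ∫ x, f x ^ 2 ∂(mu U) := by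
    have : ∀ x, LO b' U f x = LO b U f x := fun x => LO_indep b' b (tst_two hf) x
    simp only [this]
    exact hne
  have hfixe : ∀ e ∈ Sᗮ, g e = e := by
    intro e he
    rw [hS, Mv, Submodule.orthogonal_orthogonal, LinearMap.mem_ker] at he
    have : g e - e = 0 := by simpa using he
    exact sub_eq_zero.1 this
  have h0 : ∀ i ∉ I, ∫ x, D (b' i) f x ∂(mu U) = 0 := by
    intro i hi
    rcases i with i | j
    · exact absurd (Finset.mem_map.2 ⟨i, Finset.mem_univ _, rfl⟩) hi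
    · exact mean_D_zero hU hu g hg (hfixe _ (hb2 j))
  have hcore := core b' I hU hlam ha0 hla hpc hf h0 hε hε1 hne'
  have hfib := fibre_ineq hU g hg hβ hm hm1 hu
  rw [← hS] at hfib
  set v2 : E → ℝ := fun x => ∑ i ∈ I, (D (b' i) f x) ^ 2 with hv2
  have hv : ∀ x, ‖(fderiv ℝ (fun y => u (g y) - u y) x).comp S.subtypeL‖ ^ 2 = v2 x := by
    intro x
    rw [hb3, hv2]
    simp only [hI, Finset.sum_map, Function.Embedding.coeFn_mk]
    rfl
  simp only [hv] at hfib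
  set om' := om S m β with hom'
  set F : ℝ := ∫ x, f x ^ 2 * om' x ∂(mu U) with hF
  have hF0 : 0 < F := hpos
  set Z : ℝ := ∫ x, max (v2 x - 4 * a ^ 2 * f x ^ 2) 0 ∂(mu U) with hZ
  -- boundedness
  have hfin := isFinite_mu hU
  have bf : BC f := tst_BC hf
  have bom : BC om' := ⟨om_cont S m β, 1, fun x => by
    rw [abs_of_pos (om_pos S m β x)]; exact om_le_one S hβ x⟩
  have bv : BC v2 := BC.sum (s := I) fun i => (D_BC (tst_one hf) hf.2 (b' i)).sq
  have bmax : BC (fun x => max (v2 x - 4 * a ^ 2 * f x ^ 2) 0) := by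
    have h1 : BC (fun x => v2 x - 4 * a ^ 2 * f x ^ 2) := bv.sub ((BC.const (4 * a ^ 2)).mul bf.sq)
    obtain ⟨hc, A, hA⟩ := h1
    refine ⟨hc.max continuous_const, A, fun x => ?_⟩
    have hA0 := (abs_nonneg _).trans (hA x)
    rw [abs_of_nonneg (le_max_right _ _)]
    exact max_le ((le_abs_self _).trans (hA x)) hA0
  have hstep1 : ∫ x, v2 x * om' x ∂(mu U) ≤ Z + 4 * a ^ 2 * F := by
    rw [hZ, hF, ← integral_const_mul, ← integral_add (bmax.integrable _)
      ((bf.sq.mul bom).integrable _ |>.const_mul _)]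
    refine integral_mono ((bv.mul bom).integrable _) ((bmax.integrable _).add
      ((bf.sq.mul bom).integrable _ |>.const_mul _)) fun x => ?_
    simp only
    have h1 : v2 x ≤ max (v2 x - 4 * a ^ 2 * f x ^ 2) 0 + 4 * a ^ 2 * f x ^ 2 := by
      have := le_max_left (v2 x - 4 * a ^ 2 * f x ^ 2) 0
      linarith
    have h2 : v2 x * om' x ≤ (max (v2 x - 4 * a ^ 2 * f x ^ 2) 0 + 4 * a ^ 2 * f x ^ 2) * om' x :=
      mul_le_mul_of_nonneg_right h1 (om_pos S m β x).le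
    have h3 : max (v2 x - 4 * a ^ 2 * f x ^ 2) 0 * om' x ≤ max (v2 x - 4 * a ^ 2 * f x ^ 2) 0 := by
      have := mul_le_mul_of_nonneg_left (om_le_one S (m := m) hβ x)
        (le_max_right (v2 x - 4 * a ^ 2 * f x ^ 2) 0)
      rwa [mul_one] at this
    calc v2 x * om' x ≤ _ := h2
      _ = max (v2 x - 4 * a ^ 2 * f x ^ 2) 0 * om' x + 4 * a ^ 2 * (f x ^ 2 * om' x) := by ring
      _ ≤ _ := by linarith
  set KP : ℝ := 20 * m / β ^ 2 with hKP
  have hKP0 : 0 < KP := by positivity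
  have hKa : KP * (4 * a ^ 2) = 1 / 2 := by
    rw [hKP, ha2]; field_simp; ring
  have hstep2 : F ≤ 2 * KP * Z := by
    have h1 : F ≤ KP * (Z + 4 * a ^ 2 * F) := hfib.trans (mul_le_mul_of_nonneg_left hstep1 hKP0.le)
    have h2 : KP * (Z + 4 * a ^ 2 * F) = KP * Z + (KP * (4 * a ^ 2)) * F := by ring
    rw [h2, hKa] at h1
    linarith
  have hstep3 : (∫ x, |f x| ∂(mu U)) ^ 2 ≤ 3 * F := by
    have iP : Integrable (fun x => Real.exp (2 * β * ‖S.orthogonalProjectionOnto x‖)) (mu U) := by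
      refine integrable_exp_growth hU (A := 1) (B := 2 * β) ?_ fun x => ?_
      · exact Real.continuous_exp.comp (continuous_const.mul S.orthogonalProjectionOnto.continuous.norm)
      · rw [abs_of_pos (Real.exp_pos _), one_mul, Real.exp_le_exp]
        exact mul_le_mul_of_nonneg_left (S.norm_orthogonalProjectionOnto_apply_le x) (by positivity)
    have h1 := cs_weight (μ := mu U) (F := f) (om' := om') (fun x => om_pos S m β x)
      (bf.integrable _).abs ((bf.sq.mul bom).integrable _) iP (fun x => om_inv_le S hβ x) hF0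
    refine h1.trans ?_
    have h2 := mul_le_mul_of_nonneg_left hmom hF0.le
    linarith
  set N : ℝ := ∫ x, f x ^ 2 ∂(mu U) with hN
  set E1 : ℝ := 1500 * (1 + lam) * (1 + 1 / a ^ 2) * ε * N with hE1
  have hcore' : Z ≤ 39000 * lam * F + E1 := by
    have h1 : 13000 * lam * (∫ x, |f x| ∂(mu U)) ^ 2 ≤ 13000 * lam * (3 * F) :=
      mul_le_mul_of_nonneg_left hstep3 (by positivity)
    linarith [hcore]
  have hstep4 : F ≤ 78000 * KP * lam * F + 2 * KP * E1 := by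
    have h1 : 2 * KP * Z ≤ 2 * KP * (39000 * lam * F + E1) :=
      mul_le_mul_of_nonneg_left hcore' (by positivity)
    linarith
  have hKl : 78000 * KP * lam ≤ 1 / 2 := by
    rw [hKP]
    rw [show 78000 * (20 * (m:ℝ) / β ^ 2) * lam = (1560000 * m * lam) / β ^ 2 by ring]
    rw [div_le_iff₀ (by positivity)]
    linarith
  have hstep5 : 78000 * KP * lam * F ≤ 1 / 2 * F := mul_le_mul_of_nonneg_right hKl hF0.le
  have hfinal : F ≤ 4 * KP * E1 := by linarith
  rw [hE1, ha2] at hfinal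
  exact hfinal

theorem pot_main [Nontrivial E] {U : E → ℝ} {t C β : ℝ} {m : ℕ} (hU : Pot U t C)
    [IsProbabilityMeasure (mu U)] {G : Set (E ≃ₗᵢ[ℝ] E)} (hGf : G.Finite)
    (hinv : ∀ g ∈ G, ∀ x, U (g x) = U x) (hfix : ∀ p : E, (∀ g ∈ G, g p = p) → p = 0)
    (hm1 : 1 ≤ m) (hβ : 0 < β)
    (hm : ∀ g ∈ G, Module.finrank ℝ (Mv (g.toLinearEquiv : E →ₗ[ℝ] E)) ≤ m)
    (hmom : ∀ g ∈ G, ∫ x, Real.exp (2 * β *
      ‖(Mv (g.toLinearEquiv : E →ₗ[ℝ] E)).orthogonalProjectionOnto x‖) ∂(mu U) ≤ 3) :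
    GPC (mu U) (3120000 * m / β ^ 2) := by
  classical
  set b := stdOrthonormalBasis ℝ E with hb
  have hm0 : (0:ℝ) < m := by exact_mod_cast hm1
  obtain ⟨lam, hlam, hpc, hnear⟩ := near_eig b hU
  by_cases hsm : 3120000 * m * lam ≤ β ^ 2
  swap
  · refine gpc_mono hpc ?_
    rw [div_le_div_iff₀ hlam (by positivity)]
    push Not at hsm
    linarith
  exfalso
  -- confinement
  have hconf : ∀ g ∈ G, ∃ c : ℝ, 0 < c ∧ ∀ f : E → ℝ, Tst f →
      ∫ x, ‖fderiv ℝ f x‖ ^ 2 ∂(mu U) ≤ (lam + 1) * ∫ x, f x ^ 2 ∂(mu U) →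
      c * ∫ x, f x ^ 2 ∂(mu U) ≤
        ∫ x, f x ^ 2 * om (Mv (g.toLinearEquiv : E →ₗ[ℝ] E)) m β x ∂(mu U) := fun g _ =>
    confine hU (om_cont _ m β) (om_pos _ m β)
  have hne : G.Nonempty := by
    obtain ⟨p, hp⟩ := exists_ne (0 : E)
    by_contra h
    rw [Set.not_nonempty_iff_eq_empty] at h
    exact hp (hfix p fun g hg => by rw [h] at hg; exact hg.elim)
  choose! cc hcc0 hcc using hconf
  obtain ⟨g0, hg0, hmin⟩ := Set.exists_min_image G cc hGf hne
  set c := cc g0 with hc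
  have hc0 : 0 < c := hcc0 g0 hg0
  set Q : ℝ := 4 * (20 * m / β ^ 2) * (1500 * (1 + lam) * (1 + 1 / (β ^ 2 / (160 * m)))) with hQ
  have hQ0 : 0 < Q := by positivity
  set ε : ℝ := min 1 (c / (2 * Q)) with hε
  have hε0 : 0 < ε := lt_min one_pos (by positivity)
  have hε1 : ε ≤ 1 := min_le_left _ _
  have hεQ : Q * ε ≤ c / 2 := by
    have : ε ≤ c / (2 * Q) := min_le_right _ _
    rw [le_div_iff₀ (by positivity)] at this
    linarith
  obtain ⟨g, hg, u, hu, hN0, hr⟩ := select b hU hinv hfix hlam hpc hnear hε0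
  have hgrad := grad_le b hU (tst_disp hu g) hε0 hε1 hr
  have hcf := hcc g hg _ (tst_disp hu g) hgrad
  set N := ∫ x, (u (g x) - u x) ^ 2 ∂(mu U) with hN
  have h1 : c * N ≤ ∫ x, (u (g x) - u x) ^ 2 * om (Mv (g.toLinearEquiv : E →ₗ[ℝ] E)) m β x ∂(mu U) :=
    (mul_le_mul_of_nonneg_right (hmin g hg) hN0.le).trans hcf
  have hpos : 0 < ∫ x, (u (g x) - u x) ^ 2 *
      om (Mv (g.toLinearEquiv : E →ₗ[ℝ] E)) m β x ∂(mu U) :=
    lt_of_lt_of_le (mul_pos hc0 hN0) h1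
  have h2 := one_sym b hU g (hinv g hg) hm1 hβ (hm g hg) (hmom g hg) hlam hpc hsm hε0 hε1 hu hpos hr
  have h3 : c * N ≤ Q * ε * N := by
    refine (h1.trans h2).trans_eq ?_
    rw [hQ, ← hN]; ring
  have h4 : Q * ε * N ≤ c / 2 * N := mul_le_mul_of_nonneg_right hεQ hN0.le
  nlinarith [mul_pos hc0 hN0]

end J78

end Pool.Agent.H84.Sym
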